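import Pool.Agent.H20.MT.Stmts
import Pool.Agent.H20.MT.Rho

/-! # MTA, module CHAR -/

set_option autoImplicit false

namespace MTA
open Finset

/-- primes dividing `q` are not in the support -/
theorem char_supp {c : ℕ} (hc : 1 ≤ c) {x : ℝ} {q p : ℕ} (hx : 100 ≤ x) (hq : 1 ≤ q)
    (hqx : (q : ℝ) ≤ x ^ (1 / 5 : ℝ)) (hp : p.Prime) (hpq : p ∣ q) :
    rho (Real.log (((p : ℝ) - 1) / (c * x))) = 0 := by
  apply rho_zero
  have hx0 : (0 : ℝ) < x := by linarith
  have hc1 : (1 : ℝ) ≤ c := by exact_mod_cast hc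
  have hp2 : (2 : ℝ) ≤ p := by exact_mod_cast hp.two_le
  have hpq' : (p : ℝ) ≤ q := by exact_mod_cast Nat.le_of_dvd hq hpq
  have hpos : 0 < ((p : ℝ) - 1) / (c * x) := by
    apply div_pos <;> nlinarith
  have h1 : ((p : ℝ) - 1) / (c * x) ≤ x ^ (-(4 / 5) : ℝ) := by
    rw [div_le_iff₀ (by positivity)]
    have h2 : x ^ (-(4 / 5) : ℝ) * x = x ^ (1 / 5 : ℝ) := by
      rw [← Real.rpow_add_one hx0.ne']; norm_num
    have h3 : 0 ≤ x ^ (1 / 5 : ℝ) := Real.rpow_nonneg hx0.le _
    calc (p : ℝ) - 1 ≤ x ^ (1 / 5 : ℝ) := by linarith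
      _ ≤ c * x ^ (1 / 5 : ℝ) := by nlinarith
      _ = x ^ (-(4 / 5) : ℝ) * (c * x) := by rw [← h2]; ring
  have h2 : Real.log (((p : ℝ) - 1) / (c * x)) ≤ -(4 / 5) * Real.log x := by
    rw [← Real.log_rpow hx0]
    exact Real.log_le_log hpos h1
  have h3 : (5 / 2 : ℝ) ≤ Real.log x := by
    rw [Real.le_log_iff_exp_le hx0]
    refine le_trans ?_ hx
    have h4 := Real.exp_one_lt_d9
    have h5 : Real.exp (5 / 2 : ℝ) ≤ Real.exp 3 := Real.exp_le_exp.2 (by norm_num)
    have h6 : Real.exp 3 = Real.exp 1 ^ 3 := by rw [← Real.exp_nat_mul]; norm_num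
    rw [h6] at h5
    have h7 : Real.exp 1 ^ 3 ≤ 3 ^ 3 := by
      have := Real.exp_pos 1
      gcongr
      linarith
    linarith
  have h4 : Real.log (((p : ℝ) - 1) / (c * x)) ≤ -2 := by linarith
  rw [abs_of_nonpos (by linarith)]
  linarith

theorem char_main {c : ℕ} (hc : 1 ≤ c) {x : ℝ} {q a : ℕ} (hx : 100 ≤ x) (hq : 1 ≤ q)
    (hqx : (q : ℝ) ≤ x ^ (1 / 5 : ℝ)) (ha : a.Coprime q) :
    |EE c x q a| ≤ 1 / (q.totient : ℝ) * nps q (fun χ => ‖thetaR c x χ‖) := by
  classical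
  have : NeZero q := ⟨by omega⟩
  have hφ : (0 : ℝ) < q.totient := by exact_mod_cast Nat.totient_pos.2 hq
  have hφC : (q.totient : ℂ) ≠ 0 := by exact_mod_cast hφ.ne'
  have hunit : IsUnit (a : ZMod q) := (ZMod.isUnit_iff_coprime a q).2 ha
  set f : ℕ → ℂ := fun p => (Real.log p : ℂ) * (rho (Real.log (((p : ℝ) - 1) / (c * x))) : ℂ) with hf
  -- orthogonality
  have horth : ∑ χ : DirichletCharacter ℂ q, χ (a : ZMod q)⁻¹ * thetaR c x χ =
      (q.totient : ℂ) * (THa c x q a : ℂ) := by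
    unfold thetaR THa
    simp only [mul_sum]
    rw [sum_comm, Complex.ofReal_sum, mul_sum, sum_filter, sum_filter]
    refine sum_congr rfl fun p _ => ?_
    by_cases hp : p.Prime
    · rw [if_pos hp]
      have h1 : ∑ χ : DirichletCharacter ℂ q, χ (a : ZMod q)⁻¹ *
          ((Real.log p : ℂ) * χ p * (rho (Real.log (((p : ℝ) - 1) / (c * x))) : ℂ)) =
          f p * ∑ χ : DirichletCharacter ℂ q, χ (a : ZMod q)⁻¹ * χ (p : ZMod q) := by
        rw [mul_sum]
        refine sum_congr rfl fun χ _ => ?_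
        rw [hf]; ring
      rw [h1, DirichletCharacter.sum_char_inv_mul_char_eq ℂ hunit]
      by_cases hpa : p ≡ a [MOD q]
      · have h2 : (a : ZMod q) = (p : ZMod q) := ((ZMod.natCast_eq_natCast_iff _ _ _).2 hpa).symm
        rw [if_pos h2, if_pos ⟨hp, hpa⟩, hf]
        push_cast
        ring
      · have h2 : ¬ (a : ZMod q) = (p : ZMod q) := fun h =>
          hpa ((ZMod.natCast_eq_natCast_iff _ _ _).1 h.symm)
        rw [if_neg h2, if_neg (fun h => hpa h.2)]
        simp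
    · rw [if_neg hp, if_neg (fun h => hp h.1)]
  -- the trivial character
  have htriv : thetaR c x (1 : DirichletCharacter ℂ q) = (TH c x : ℂ) := by
    unfold thetaR TH
    rw [Complex.ofReal_sum]
    refine sum_congr rfl fun p hp => ?_
    have hpp := (mem_filter.1 hp).2
    by_cases hpq : p ∣ q
    · rw [char_supp hc hx hq hqx hpp hpq]; simp
    · have h1 : IsUnit (p : ZMod q) := (ZMod.isUnit_iff_coprime p q).2 ((Nat.Prime.coprime_iff_not_dvd hpp).2 hpq)
      rw [MulChar.one_apply h1]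
      push_cast
      ring
  have hone : (1 : DirichletCharacter ℂ q) (a : ZMod q)⁻¹ = 1 := by
    apply MulChar.one_apply
    exact IsUnit.of_mul_eq_one _ (ZMod.inv_mul_of_unit _ hunit)
  have hEE : (q.totient : ℂ) * (EE c x q a : ℂ) =
      ∑ χ : DirichletCharacter ℂ q, if χ = 1 then 0 else χ (a : ZMod q)⁻¹ * thetaR c x χ := by
    have h1 : ∑ χ : DirichletCharacter ℂ q, (if χ = 1 then 0 else χ (a : ZMod q)⁻¹ * thetaR c x χ) =
        ∑ χ : DirichletCharacter ℂ q, χ (a : ZMod q)⁻¹ * thetaR c x χ -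
          ∑ χ : DirichletCharacter ℂ q, (if χ = 1 then χ (a : ZMod q)⁻¹ * thetaR c x χ else 0) := by
      rw [← sum_sub_distrib]
      refine sum_congr rfl fun χ _ => ?_
      split_ifs <;> simp
    rw [h1, horth, sum_ite_eq' univ (1 : DirichletCharacter ℂ q), if_pos (mem_univ _), hone, htriv]
    unfold EE
    push_cast
    field_simp
  have hfin : (q.totient : ℝ) * |EE c x q a| ≤ nps q (fun χ => ‖thetaR c x χ‖) := by
    have h1 : (q.totient : ℝ) * |EE c x q a| = ‖(q.totient : ℂ) * (EE c x q a : ℂ)‖ := by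
      rw [norm_mul, Complex.norm_real, Complex.norm_natCast, Real.norm_eq_abs]
    rw [h1, hEE]
    unfold nps
    refine norm_sum_le_of_le _ fun χ _ => ?_
    by_cases h : χ = 1
    · simp [h]
    · rw [if_neg h, if_neg h, norm_mul]
      have := χ.norm_le_one (a : ZMod q)⁻¹
      have h2 := norm_nonneg (thetaR c x χ)
      nlinarith
  rw [one_div, inv_mul_eq_div, le_div_iff₀ hφ, mul_comm]
  exact hfin

theorem CHAR : S_CHAR := by
  intro c hc
  refine ⟨100, ?_⟩
  intro x q hx hq hqx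
  have : Nonempty (Fin q) := ⟨⟨0, by omega⟩⟩
  refine ciSup_le fun a => ?_
  split_ifs with h
  · exact char_main hc hx hq hqx h
  · have h1 : 0 ≤ nps q (fun χ => ‖thetaR c x χ‖) := by
      unfold nps
      refine sum_nonneg fun χ _ => ?_
      split_ifs
      · exact le_rfl
      · exact norm_nonneg _
    positivity

end MTA
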