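import Pool.Agent.H20.MT.Stmts

/-! # MTA, module FOUR -/

set_option autoImplicit false

namespace MTA
open Finset MeasureTheory
open scoped FourierTransform

theorem four_norm (f : ℝ → ℂ) (u : ℝ) : ‖𝓕 f u‖ ≤ ∫ v, ‖f v‖ := by
  rw [Real.fourier_real_eq]
  apply (norm_integral_le_integral_norm _).trans
  simp_rw [Circle.norm_smul]
  exact le_rfl

theorem FOUR : S_FOUR := by
  intro Φ hΦ hc
  have hcont : Continuous Φ := hΦ.continuous
  have hint : Integrable Φ := hcont.integrable_of_hasCompactSupport hc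
  have hcs : ∀ n : ℕ, HasCompactSupport (iteratedDeriv n Φ) := by
    intro n
    induction n with
    | zero => simpa [iteratedDeriv_zero] using hc
    | succ n ih => rw [iteratedDeriv_succ]; exact ih.deriv
  have hints : ∀ n : ℕ, (n : ℕ∞) ≤ ((2 : ℕ) : ℕ∞) → Integrable (iteratedDeriv n Φ) := by
    intro n hn
    refine Continuous.integrable_of_hasCompactSupport ?_ (hcs n)
    exact hΦ.continuous_iteratedDeriv n (by exact_mod_cast hn)
  have hF2 : 𝓕 (iteratedDeriv 2 Φ) = fun (x : ℝ) ↦ (2 * Real.pi * Complex.I * x) ^ 2 • (𝓕 Φ x) :=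
    Real.fourier_iteratedDeriv (N := ((2 : ℕ) : ℕ∞)) (by exact_mod_cast hΦ) hints le_rfl
  have hgc : Continuous (𝓕 Φ) :=
    VectorFourier.fourierIntegral_continuous Real.continuous_fourierChar
      (innerSL ℝ).continuous₂ hint
  have hbd : ∀ u, ‖𝓕 Φ u‖ ≤ ((∫ v, ‖Φ v‖) + ∫ v, ‖iteratedDeriv 2 Φ v‖) / (1 + u ^ 2) := by
    intro u
    have h1 := four_norm Φ u
    have h2 := four_norm (iteratedDeriv 2 Φ) u
    rw [hF2] at h2
    simp only [smul_eq_mul, norm_mul, norm_pow, Complex.norm_real, Complex.norm_I, mul_one,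
      Complex.norm_ofNat, Real.norm_eq_abs] at h2
    have h3 : 1 ≤ 2 * |Real.pi| := by
      rw [abs_of_pos Real.pi_pos]
      have := Real.pi_gt_three
      linarith
    have h4 : u ^ 2 ≤ (2 * |Real.pi| * |u|) ^ 2 := by
      rw [mul_pow, sq_abs]
      have : 1 ≤ (2 * |Real.pi|) ^ 2 := by nlinarith
      nlinarith [sq_nonneg u]
    have h5 := norm_nonneg (𝓕 Φ u)
    rw [le_div_iff₀ (by positivity)]
    nlinarith [mul_le_mul_of_nonneg_right h4 h5]
  have hgi : Integrable (𝓕 Φ) := by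
    refine Integrable.mono' (g := fun u => ((∫ v, ‖Φ v‖) + ∫ v, ‖iteratedDeriv 2 Φ v‖) * (1 + u ^ 2)⁻¹)
      (integrable_inv_one_add_sq.const_mul _) hgc.aestronglyMeasurable ?_
    filter_upwards with u
    have := hbd u
    rwa [div_eq_mul_inv] at this
  refine ⟨𝓕 Φ, hgc, hbd, ?_⟩
  intro v
  have h1 : 𝓕⁻ (𝓕 Φ) v = Φ v := by rw [hcont.fourierInv_fourier_eq hint hgi]
  rw [← h1, Real.fourierInv_eq']
  refine integral_congr_ae ?_
  filter_upwards with u
  rw [smul_eq_mul, mul_comm]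
  congr 2
  simp only [RCLike.inner_apply, conj_trivial]
  push_cast
  ring

end MTA
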