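import Pool.Agent.H20.MT.Stmts
import Pool.Agent.H20.MT.Rho

/-! # MTA, module PRIMV -/

set_option autoImplicit false

namespace MTA
open Finset

theorem primv_inner (p N : ℕ) (hp : p.Prime) :
    ∑ n ∈ (Icc 1 N).filter (fun n => p ∣ n), ArithmeticFunction.vonMangoldt n ≤ Real.log (N + 1) := by
  have hsub : ((Icc 1 N).filter (fun n => p ∣ n)).filter
      (fun n => ArithmeticFunction.vonMangoldt n ≠ 0) ⊆ (Icc 1 (Nat.log p N)).image (fun k => p ^ k) := by
    intro n hn
    simp only [mem_filter, mem_Icc] at hn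
    obtain ⟨⟨⟨h1, h2⟩, h3⟩, h4⟩ := hn
    rw [ArithmeticFunction.vonMangoldt_ne_zero_iff] at h4
    obtain ⟨r, k, hr, hk, rfl⟩ := (isPrimePow_nat_iff _).1 h4
    have hpr : p = r := (Nat.prime_dvd_prime_iff_eq hp hr).1 (hp.dvd_of_dvd_pow h3)
    subst hpr
    refine mem_image.2 ⟨k, mem_Icc.2 ⟨hk, ?_⟩, rfl⟩
    exact Nat.le_log_of_pow_le hp.one_lt h2
  have h1 : ∑ n ∈ (Icc 1 N).filter (fun n => p ∣ n), ArithmeticFunction.vonMangoldt n =
      ∑ n ∈ ((Icc 1 N).filter (fun n => p ∣ n)).filter
        (fun n => ArithmeticFunction.vonMangoldt n ≠ 0), ArithmeticFunction.vonMangoldt n := by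
    rw [sum_filter_ne_zero]
  rw [h1]
  calc _ ≤ ∑ n ∈ (Icc 1 (Nat.log p N)).image (fun k => p ^ k), ArithmeticFunction.vonMangoldt n :=
        sum_le_sum_of_subset_of_nonneg hsub (fun _ _ _ => ArithmeticFunction.vonMangoldt_nonneg)
    _ = ∑ k ∈ Icc 1 (Nat.log p N), ArithmeticFunction.vonMangoldt (p ^ k) := by
        rw [sum_image]
        intro a _ b _ hab
        exact Nat.pow_right_injective hp.two_le hab
    _ = ∑ k ∈ Icc 1 (Nat.log p N), Real.log p := by
        refine sum_congr rfl fun k hk => ?_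
        rw [ArithmeticFunction.vonMangoldt_apply_pow (by have := (mem_Icc.1 hk).1; omega),
          ArithmeticFunction.vonMangoldt_apply_prime hp]
    _ = (Nat.log p N : ℝ) * Real.log p := by
        rw [sum_const, Nat.card_Icc]; simp
    _ ≤ Real.log (N + 1) := by
        rw [← Real.log_pow]
        refine Real.log_le_log (by have := hp.pos; positivity) ?_
        rcases Nat.eq_zero_or_pos N with h | h
        · subst h; simp
        · have := Nat.pow_log_le_self p (Nat.pos_iff_ne_zero.1 h)
          have h2 : ((p ^ Nat.log p N : ℕ) : ℝ) ≤ N := by exact_mod_cast this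
          push_cast at h2
          linarith

theorem primv_sum (q N : ℕ) (hq : 1 ≤ q) :
    ∑ n ∈ (Icc 1 N).filter (fun n => ¬ n.Coprime q), ArithmeticFunction.vonMangoldt n ≤
      (Real.log q / Real.log 2) * Real.log (N + 1) := by
  have h0 : ∀ n ∈ (Icc 1 N).filter (fun n => ¬ n.Coprime q), ArithmeticFunction.vonMangoldt n ≤
      ∑ p ∈ q.primeFactors, if p ∣ n then ArithmeticFunction.vonMangoldt n else 0 := by
    intro n hn
    obtain ⟨h1, h2⟩ := mem_filter.1 hn
    obtain ⟨p, hp, hpn, hpq⟩ := Nat.Prime.not_coprime_iff_dvd.1 h2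
    have hm : p ∈ q.primeFactors := Nat.mem_primeFactors.2 ⟨hp, hpq, by omega⟩
    have := single_le_sum (f := fun p => if p ∣ n then ArithmeticFunction.vonMangoldt n else 0)
      (fun p _ => by
        split_ifs
        · exact ArithmeticFunction.vonMangoldt_nonneg
        · exact le_rfl) hm
    simpa [hpn] using this
  have hcard : (q.primeFactors.card : ℝ) ≤ Real.log q / Real.log 2 := by
    rw [le_div_iff₀ (Real.log_pos one_lt_two), ← Real.log_pow]
    refine Real.log_le_log (by positivity) ?_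
    have h1 : 2 ^ q.primeFactors.card ≤ ∏ p ∈ q.primeFactors, p := by
      rw [← prod_const]
      exact prod_le_prod' fun p hp => (Nat.prime_of_mem_primeFactors hp).two_le
    have h2 : ∏ p ∈ q.primeFactors, p ≤ q := Nat.le_of_dvd hq (Nat.prod_primeFactors_dvd q)
    exact_mod_cast h1.trans h2
  have hlog : 0 ≤ Real.log ((N : ℝ) + 1) := Real.log_nonneg (by
    have : (0 : ℝ) ≤ N := Nat.cast_nonneg N
    linarith)
  calc _ ≤ ∑ n ∈ (Icc 1 N).filter (fun n => ¬ n.Coprime q),
        ∑ p ∈ q.primeFactors, (if p ∣ n then ArithmeticFunction.vonMangoldt n else 0) := sum_le_sum h0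
    _ = ∑ p ∈ q.primeFactors, ∑ n ∈ (Icc 1 N).filter (fun n => ¬ n.Coprime q),
        (if p ∣ n then ArithmeticFunction.vonMangoldt n else 0) := sum_comm
    _ ≤ ∑ p ∈ q.primeFactors, Real.log (N + 1) := by
        refine sum_le_sum fun p hp => ?_
        refine le_trans ?_ (primv_inner p N (Nat.prime_of_mem_primeFactors hp))
        rw [sum_filter, sum_filter]
        refine sum_le_sum fun n _ => ?_
        split_ifs
        all_goals first | exact le_rfl | exact ArithmeticFunction.vonMangoldt_nonneg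
    _ = q.primeFactors.card * Real.log (N + 1) := by rw [sum_const, nsmul_eq_mul]
    _ ≤ _ := by gcongr

theorem PRIMV : S_PRIMV := by
  refine ⟨8, by norm_num, ?_⟩
  intro X q _ χ hX
  have hq : 1 ≤ q := Nat.one_le_iff_ne_zero.2 (NeZero.ne q)
  have hlog2 : (0.6931471803 : ℝ) < Real.log 2 := Real.log_two_gt_d9
  have hlX : Real.log 2 ≤ Real.log X := Real.log_le_log two_pos hX
  have hlq : 0 ≤ Real.log (q : ℝ) := Real.log_nonneg (by exact_mod_cast hq)
  unfold psiR
  rw [← sum_sub_distrib]
  have hterm : ∀ n ∈ Icc 1 ⌊8 * X⌋₊,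
      ‖(ArithmeticFunction.vonMangoldt n : ℂ) * χ n * (rho (Real.log (n / X)) : ℂ) -
        (ArithmeticFunction.vonMangoldt n : ℂ) * χ.primitiveCharacter n *
          (rho (Real.log (n / X)) : ℂ)‖ ≤
      if n.Coprime q then 0 else ArithmeticFunction.vonMangoldt n := by
    intro n _
    split_ifs with h
    · have h1 : χ.primitiveCharacter ((n : ℤ) : ZMod χ.conductor) = χ ((n : ℤ) : ZMod q) := by
        apply DirichletCharacter.primitiveCharacter_apply_of_isCoprime
        exact Nat.isCoprime_iff_coprime.2 h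
      have h2 : χ.primitiveCharacter (n : ZMod χ.conductor) = χ (n : ZMod q) := by
        simpa using h1
      rw [h2]; simp
    · have h1 : χ (n : ZMod q) = 0 := by
        apply χ.map_nonunit
        rw [ZMod.isUnit_iff_coprime]
        exact h
      rw [h1]
      simp only [mul_zero, zero_mul, zero_sub, norm_neg, norm_mul]
      have h3 : ‖(ArithmeticFunction.vonMangoldt n : ℂ)‖ = ArithmeticFunction.vonMangoldt n := by
        rw [Complex.norm_real, Real.norm_of_nonneg ArithmeticFunction.vonMangoldt_nonneg]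
      have h4 : ‖χ.primitiveCharacter (n : ZMod χ.conductor)‖ ≤ 1 := χ.primitiveCharacter.norm_le_one _
      have h5 : ‖(rho (Real.log (n / X)) : ℂ)‖ ≤ 1 := by
        rw [Complex.norm_real, Real.norm_of_nonneg (rho_nonneg _)]
        exact rho_le_one _
      rw [h3]
      have h6 : 0 ≤ ArithmeticFunction.vonMangoldt n := ArithmeticFunction.vonMangoldt_nonneg
      calc _ ≤ ArithmeticFunction.vonMangoldt n * 1 * 1 := by gcongr
        _ = _ := by ring
  calc _ ≤ ∑ n ∈ Icc 1 ⌊8 * X⌋₊, (if n.Coprime q then 0 else ArithmeticFunction.vonMangoldt n) :=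
        norm_sum_le_of_le _ hterm
    _ = ∑ n ∈ (Icc 1 ⌊8 * X⌋₊).filter (fun n => ¬ n.Coprime q), ArithmeticFunction.vonMangoldt n := by
        rw [sum_filter]
        refine sum_congr rfl fun n _ => ?_
        split_ifs <;> simp_all
    _ ≤ (Real.log q / Real.log 2) * Real.log ((⌊8 * X⌋₊ : ℕ) + 1) := primv_sum q _ hq
    _ ≤ (Real.log q / Real.log 2) * (5 * Real.log X) := by
        have h1 : Real.log (((⌊8 * X⌋₊ : ℕ) : ℝ) + 1) ≤ 5 * Real.log X := by
          have : (5 : ℝ) * Real.log X = Real.log (X ^ 5) := by rw [Real.log_pow]; norm_num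
          rw [this]
          refine Real.log_le_log (by positivity) ?_
          have h1 : ((⌊8 * X⌋₊ : ℕ) : ℝ) ≤ 8 * X := Nat.floor_le (by linarith)
          have h2 : (16 : ℝ) ≤ X ^ 4 := by
            calc (16 : ℝ) = 2 ^ 4 := by norm_num
              _ ≤ X ^ 4 := by gcongr
          nlinarith
        have h2 : 0 ≤ Real.log (q : ℝ) / Real.log 2 := by positivity
        gcongr
    _ ≤ 8 * Real.log X * (1 + Real.log q) := by
        have h1 : Real.log (q : ℝ) / Real.log 2 ≤ 1.5 * Real.log q := by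
          rw [div_le_iff₀ (by linarith)]
          nlinarith
        have h3 : 0 ≤ Real.log X := by linarith
        nlinarith [mul_nonneg hlq h3]

end MTA
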