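import Pool.Agent.H20.MT.Stmts

/-! # MTA, module REARR -/

set_option autoImplicit false

namespace MTA
open Finset

/-- `m / φ(m) ≤ (∑ 1/d)^2` -/
theorem rearr_phi (m : ℕ) (hm : 1 ≤ m) :
    1 / (m.totient : ℝ) ≤ 1 / (m : ℝ) * (∑ d ∈ m.divisors, 1 / (d : ℝ)) ^ 2 := by
  have hm0 : (0 : ℝ) < m := by exact_mod_cast hm
  have hprod : ∏ p ∈ m.primeFactors, (1 + 1 / (p : ℝ)) ≤ ∑ d ∈ m.divisors, 1 / (d : ℝ) := by
    rw [prod_one_add]
    have hinj : Set.InjOn (fun t : Finset ℕ => ∏ p ∈ t, p) (m.primeFactors.powerset : Set (Finset ℕ)) := by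
      intro s hs t ht hst
      have h1 : ∀ u ∈ (m.primeFactors.powerset : Set (Finset ℕ)), (∏ p ∈ u, p).primeFactors = u := by
        intro u hu
        apply Nat.primeFactors_prod
        intro p hp
        exact Nat.prime_of_mem_primeFactors ((mem_powerset.1 hu) hp)
      rw [← h1 s hs, ← h1 t ht]
      simp only at hst
      rw [hst]
    calc ∑ t ∈ m.primeFactors.powerset, ∏ p ∈ t, 1 / (p : ℝ)
        = ∑ t ∈ m.primeFactors.powerset, 1 / (((fun t : Finset ℕ => ∏ p ∈ t, p) t : ℕ) : ℝ) := by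
          refine sum_congr rfl fun t _ => ?_
          simp only [one_div, prod_inv_distrib, Nat.cast_prod]
      _ = ∑ d ∈ m.primeFactors.powerset.image (fun t : Finset ℕ => ∏ p ∈ t, p), 1 / (d : ℝ) := by
          rw [sum_image hinj]
      _ ≤ _ := by
          apply sum_le_sum_of_subset_of_nonneg
          · intro d hd
            obtain ⟨t, ht, rfl⟩ := mem_image.1 hd
            rw [Nat.mem_divisors]
            refine ⟨(prod_dvd_prod_of_subset _ _ _ (mem_powerset.1 ht)).trans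
              (Nat.prod_primeFactors_dvd m), by omega⟩
          · intros; positivity
  have htot : (m.totient : ℝ) = m * ∏ p ∈ m.primeFactors, (1 - 1 / (p : ℝ)) := by
    have := Nat.totient_eq_mul_prod_factors m
    have h2 := congrArg (fun r : ℚ => (r : ℝ)) this
    simp only [Rat.cast_mul, Rat.cast_natCast, Rat.cast_prod, Rat.cast_sub, Rat.cast_one,
      Rat.cast_inv] at h2
    rw [h2]
    simp only [one_div]
  have hpos : 0 < ∏ p ∈ m.primeFactors, (1 - 1 / (p : ℝ)) := by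
    refine prod_pos fun p hp => ?_
    have : (2 : ℝ) ≤ p := by exact_mod_cast (Nat.prime_of_mem_primeFactors hp).two_le
    have h1 : 1 / (p : ℝ) ≤ 1 / 2 := one_div_le_one_div_of_le two_pos this
    linarith
  have hpp : 1 ≤ (∏ p ∈ m.primeFactors, (1 - 1 / (p : ℝ))) * (∏ p ∈ m.primeFactors, (1 + 1 / (p : ℝ))) ^ 2 := by
    rw [← prod_pow, ← prod_mul_distrib]
    have : ∀ p ∈ m.primeFactors, (1 : ℝ) ≤ (1 - 1 / (p : ℝ)) * (1 + 1 / (p : ℝ)) ^ 2 := by
      intro p hp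
      have h2 : (2 : ℝ) ≤ p := by exact_mod_cast (Nat.prime_of_mem_primeFactors hp).two_le
      have h1 : 1 / (p : ℝ) ≤ 1 / 2 := one_div_le_one_div_of_le two_pos h2
      have h0 : 0 < 1 / (p : ℝ) := by positivity
      nlinarith [mul_pos h0 h0, mul_nonneg h0.le (sub_nonneg.2 h1)]
    calc (1 : ℝ) = ∏ p ∈ m.primeFactors, 1 := by simp
      _ ≤ _ := prod_le_prod (fun _ _ => zero_le_one) this
  have hs : 0 ≤ ∏ p ∈ m.primeFactors, (1 + 1 / (p : ℝ)) := prod_nonneg fun p _ => by positivity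
  have hsq : (∏ p ∈ m.primeFactors, (1 + 1 / (p : ℝ))) ^ 2 ≤ (∑ d ∈ m.divisors, 1 / (d : ℝ)) ^ 2 := by
    gcongr
  rw [htot, div_le_iff₀ (by positivity)]
  calc (1 : ℝ) ≤ (∏ p ∈ m.primeFactors, (1 - 1 / (p : ℝ))) * (∏ p ∈ m.primeFactors, (1 + 1 / (p : ℝ))) ^ 2 := hpp
    _ ≤ (∏ p ∈ m.primeFactors, (1 - 1 / (p : ℝ))) * (∑ d ∈ m.divisors, 1 / (d : ℝ)) ^ 2 := by gcongr
    _ = _ := by field_simp

/-- the constant -/
theorem rearr_Z : ∃ Z : ℝ, 1 ≤ Z ∧ ∀ s : Finset ℕ, ∑ d ∈ s, 1 / ((d : ℝ) ^ (3 / 2 : ℝ)) ≤ Z := by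
  have hs : Summable (fun d : ℕ => 1 / ((d : ℝ) ^ (3 / 2 : ℝ))) :=
    Real.summable_one_div_nat_rpow.2 (by norm_num)
  refine ⟨max 1 (∑' d : ℕ, 1 / ((d : ℝ) ^ (3 / 2 : ℝ))), le_max_left _ _, fun s => ?_⟩
  refine le_trans ?_ (le_max_right _ _)
  exact hs.sum_le_tsum s (fun _ _ => by positivity)

theorem rearr_cs {Z : ℝ} (hZ : ∀ s : Finset ℕ, ∑ d ∈ s, 1 / ((d : ℝ) ^ (3 / 2 : ℝ)) ≤ Z) (m : ℕ) :
    (∑ d ∈ m.divisors, 1 / (d : ℝ)) ^ 2 ≤ Z * ∑ d ∈ m.divisors, 1 / ((d : ℝ) ^ (1 / 2 : ℝ)) := by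
  have h1 : ∀ d ∈ m.divisors, 1 / (d : ℝ) = 1 / ((d : ℝ) ^ (3 / 4 : ℝ)) * (1 / ((d : ℝ) ^ (1 / 4 : ℝ))) := by
    intro d hd
    have hd0 : (0 : ℝ) < d := by exact_mod_cast Nat.pos_of_mem_divisors hd
    rw [div_mul_div_comm, one_mul, ← Real.rpow_add hd0]
    norm_num
  rw [sum_congr rfl h1]
  refine le_trans (sum_mul_sq_le_sq_mul_sq _ _ _) ?_
  have h2 : ∑ d ∈ m.divisors, (1 / ((d : ℝ) ^ (3 / 4 : ℝ))) ^ 2 ≤ Z := by
    refine le_trans (le_of_eq ?_) (hZ m.divisors)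
    refine sum_congr rfl fun d hd => ?_
    have hd0 : (0 : ℝ) < d := by exact_mod_cast Nat.pos_of_mem_divisors hd
    rw [div_pow, one_pow, ← Real.rpow_mul_natCast hd0.le]
    norm_num
  have h3 : ∑ d ∈ m.divisors, (1 / ((d : ℝ) ^ (1 / 4 : ℝ))) ^ 2 =
      ∑ d ∈ m.divisors, 1 / ((d : ℝ) ^ (1 / 2 : ℝ)) := by
    refine sum_congr rfl fun d hd => ?_
    have hd0 : (0 : ℝ) < d := by exact_mod_cast Nat.pos_of_mem_divisors hd
    rw [div_pow, one_pow, ← Real.rpow_mul_natCast hd0.le]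
    norm_num
  rw [h3]
  have h4 : 0 ≤ ∑ d ∈ m.divisors, 1 / ((d : ℝ) ^ (1 / 2 : ℝ)) := sum_nonneg fun _ _ => by positivity
  gcongr

theorem rearr_harm (Q : ℕ) (hQ : 2 ≤ Q) (s : Finset ℕ) (hs : s ⊆ Icc 1 Q) :
    ∑ k ∈ s, 1 / (k : ℝ) ≤ 3 * Real.log Q := by
  have hlog2 : (0.6931471803 : ℝ) < Real.log 2 := Real.log_two_gt_d9
  have hlQ : Real.log 2 ≤ Real.log Q := Real.log_le_log two_pos (by exact_mod_cast hQ)
  calc _ ≤ ∑ k ∈ Icc 1 Q, 1 / (k : ℝ) := sum_le_sum_of_subset_of_nonneg hs fun _ _ _ => by positivity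
    _ = ((harmonic Q : ℚ) : ℝ) := by
        rw [harmonic_eq_sum_Icc]
        push_cast
        simp only [one_div]
    _ ≤ 1 + Real.log Q := harmonic_le_one_add_log Q
    _ ≤ _ := by linarith

theorem rearr_sum : ∃ C : ℝ, 0 < C ∧ ∀ Q : ℕ, 2 ≤ Q → ∑ m ∈ Icc 1 Q, 1 / (m.totient : ℝ) ≤ C * Real.log Q := by
  obtain ⟨Z, hZ1, hZ⟩ := rearr_Z
  refine ⟨3 * Z ^ 2, by positivity, ?_⟩
  intro Q hQ
  have hlog2 : (0.6931471803 : ℝ) < Real.log 2 := Real.log_two_gt_d9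
  have hlQ : Real.log 2 ≤ Real.log Q := Real.log_le_log two_pos (by exact_mod_cast hQ)
  have h1 : ∑ m ∈ Icc 1 Q, 1 / (m.totient : ℝ) ≤
      ∑ m ∈ Icc 1 Q, Z * ∑ d ∈ Icc 1 Q, (if d ∣ m then 1 / (m : ℝ) * (1 / ((d : ℝ) ^ (1 / 2 : ℝ))) else 0) := by
    refine sum_le_sum fun m hm => ?_
    obtain ⟨hm1, hm2⟩ := mem_Icc.1 hm
    refine (rearr_phi m hm1).trans ?_
    have h2 : ∑ d ∈ Icc 1 Q, (if d ∣ m then 1 / (m : ℝ) * (1 / ((d : ℝ) ^ (1 / 2 : ℝ))) else 0) =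
        1 / (m : ℝ) * ∑ d ∈ m.divisors, 1 / ((d : ℝ) ^ (1 / 2 : ℝ)) := by
      rw [← sum_filter, mul_sum]
      refine sum_congr ?_ fun _ _ => rfl
      ext d
      simp only [mem_filter, mem_Icc, Nat.mem_divisors]
      constructor
      · rintro ⟨_, h⟩
        exact ⟨h, by omega⟩
      · rintro ⟨h, _⟩
        exact ⟨⟨Nat.pos_of_dvd_of_pos h (by omega), (Nat.le_of_dvd (by omega) h).trans hm2⟩, h⟩
    rw [h2]
    have h3 := rearr_cs hZ m
    calc 1 / (m : ℝ) * (∑ d ∈ m.divisors, 1 / (d : ℝ)) ^ 2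
        ≤ 1 / (m : ℝ) * (Z * ∑ d ∈ m.divisors, 1 / ((d : ℝ) ^ (1 / 2 : ℝ))) := by gcongr
      _ = _ := by ring
  refine h1.trans ?_
  rw [← mul_sum, sum_comm]
  have h4 : ∀ d ∈ Icc 1 Q, ∑ m ∈ Icc 1 Q, (if d ∣ m then 1 / (m : ℝ) * (1 / ((d : ℝ) ^ (1 / 2 : ℝ))) else 0) ≤
      1 / ((d : ℝ) ^ (3 / 2 : ℝ)) * (3 * Real.log Q) := by
    intro d hd
    obtain ⟨hd1, hd2⟩ := mem_Icc.1 hd
    have hd0 : (0 : ℝ) < d := by exact_mod_cast hd1
    rw [← sum_filter, ← sum_mul]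
    have h5 : ∑ m ∈ (Icc 1 Q).filter (fun m => d ∣ m), 1 / (m : ℝ) =
        1 / (d : ℝ) * ∑ k ∈ ((Icc 1 Q).filter (fun m => d ∣ m)).image (fun m => m / d), 1 / (k : ℝ) := by
      rw [sum_image, mul_sum]
      · refine sum_congr rfl fun m hm => ?_
        obtain ⟨k, rfl⟩ := (mem_filter.1 hm).2
        rw [Nat.mul_div_cancel_left _ hd1]
        push_cast
        rw [div_mul_div_comm, one_mul]
      · intro a ha b hb hab
        obtain ⟨k, rfl⟩ := (mem_filter.1 ha).2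
        obtain ⟨l, rfl⟩ := (mem_filter.1 hb).2
        simp only [Nat.mul_div_cancel_left _ hd1] at hab
        rw [hab]
    rw [h5]
    have h6 := rearr_harm Q hQ (((Icc 1 Q).filter (fun m => d ∣ m)).image (fun m => m / d)) (by
      intro k hk
      obtain ⟨m, hm, rfl⟩ := mem_image.1 hk
      obtain ⟨h7, l, rfl⟩ := mem_filter.1 hm
      obtain ⟨h8, h9⟩ := mem_Icc.1 h7
      rw [Nat.mul_div_cancel_left _ hd1]
      refine mem_Icc.2 ⟨Nat.pos_of_ne_zero fun h => by rw [h] at h8; simp at h8, ?_⟩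
      exact (Nat.le_mul_of_pos_left l hd1).trans h9)
    have h7 : 1 / ((d : ℝ) ^ (3 / 2 : ℝ)) = 1 / (d : ℝ) * (1 / ((d : ℝ) ^ (1 / 2 : ℝ))) := by
      rw [div_mul_div_comm, one_mul, ← Real.rpow_one_add' hd0.le (by norm_num)]
      norm_num
    rw [h7]
    calc _ ≤ 1 / (d : ℝ) * (3 * Real.log Q) * (1 / ((d : ℝ) ^ (1 / 2 : ℝ))) := by gcongr
      _ = _ := by ring
  calc _ ≤ Z * ∑ d ∈ Icc 1 Q, 1 / ((d : ℝ) ^ (3 / 2 : ℝ)) * (3 * Real.log Q) := by
        have := sum_le_sum h4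
        gcongr
    _ = Z * ((∑ d ∈ Icc 1 Q, 1 / ((d : ℝ) ^ (3 / 2 : ℝ))) * (3 * Real.log Q)) := by rw [sum_mul]
    _ ≤ Z * (Z * (3 * Real.log Q)) := by
        have := hZ (Icc 1 Q)
        have h0 : 0 ≤ Real.log (Q : ℝ) := by linarith
        gcongr
    _ = _ := by ring

/-- all characters mod `q` in terms of primitive characters -/
theorem rearr_fix (q : ℕ) (hq : 1 ≤ q) (F : ∀ r : ℕ, DirichletCharacter ℂ r → ℝ) (hF : ∀ r χ, 0 ≤ F r χ) :
    nps q (fun χ => F _ χ.primitiveCharacter) ≤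
      ∑ r ∈ q.divisors.filter (fun r => 2 ≤ r), prs r (F r) := by
  classical
  have : NeZero q := ⟨by omega⟩
  set H : (Σ r : ℕ, DirichletCharacter ℂ r) → ℝ := fun x => if x.2.IsPrimitive then F x.1 x.2 else 0 with hH
  have hH0 : ∀ x, 0 ≤ H x := by
    intro x
    simp only [hH]
    split_ifs
    · exact hF _ _
    · exact le_rfl
  set g : DirichletCharacter ℂ q → (Σ r : ℕ, DirichletCharacter ℂ r) :=
    fun χ => ⟨χ.conductor, χ.primitiveCharacter⟩ with hg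
  have hinj : Function.Injective g := by
    intro χ ψ h
    have key : ∀ (x : Σ r : ℕ, DirichletCharacter ℂ r) (hx : x.1 ∣ q) (y : Σ r : ℕ, DirichletCharacter ℂ r)
        (hy : y.1 ∣ q), x = y →
        DirichletCharacter.changeLevel hx x.2 = DirichletCharacter.changeLevel hy y.2 := by
      rintro x hx y hy rfl
      rfl
    have h1 : DirichletCharacter.changeLevel χ.conductor_dvd_level χ.primitiveCharacter =
        DirichletCharacter.changeLevel ψ.conductor_dvd_level ψ.primitiveCharacter :=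
      key (g χ) χ.conductor_dvd_level (g ψ) ψ.conductor_dvd_level h
    rwa [DirichletCharacter.changeLevel_primitiveCharacter,
      DirichletCharacter.changeLevel_primitiveCharacter] at h1
  have h1 : nps q (fun χ => F _ χ.primitiveCharacter) =
      ∑ χ ∈ univ.filter (fun χ : DirichletCharacter ℂ q => χ ≠ 1), H (g χ) := by
    unfold nps
    rw [sum_filter]
    refine sum_congr rfl fun χ _ => ?_
    by_cases h : χ = 1
    · simp [h]
    · rw [if_neg h, if_pos h]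
      simp only [hH, hg]
      rw [if_pos χ.primitiveCharacter_isPrimitive]
  have h2 : ∑ r ∈ q.divisors.filter (fun r => 2 ≤ r), prs r (F r) =
      ∑ x ∈ (q.divisors.filter (fun r => 2 ≤ r)).sigma (fun r => (univ : Finset (DirichletCharacter ℂ r))),
        H x := by
    rw [sum_sigma]
    refine sum_congr rfl fun r _ => ?_
    unfold prs
    exact sum_congr rfl fun χ _ => rfl
  rw [h1, h2, ← sum_image (f := H) (g := g) (fun a _ b _ h => hinj h)]
  apply sum_le_sum_of_subset_of_nonneg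
  · intro x hx
    obtain ⟨χ, hχ, rfl⟩ := mem_image.1 hx
    have hχ1 := (mem_filter.1 hχ).2
    simp only [hg, mem_sigma, mem_filter, Nat.mem_divisors, mem_univ, and_true]
    refine ⟨⟨χ.conductor_dvd_level, by omega⟩, ?_⟩
    have h3 : χ.conductor ≠ 0 := χ.conductor_ne_zero
    have h4 : χ.conductor ≠ 1 := fun h => hχ1 (χ.eq_one_iff_conductor_eq_one.2 h)
    omega
  · intros; exact hH0 _

theorem REARR : S_REARR := by
  obtain ⟨C, hC, hsum⟩ := rearr_sum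
  refine ⟨C, hC, ?_⟩
  intro Q F hQ hF
  have hG : ∀ r, 0 ≤ prs r (F r) := by
    intro r
    unfold prs
    refine sum_nonneg fun χ _ => ?_
    split_ifs
    · exact hF _ _
    · exact le_rfl
  have h1 : ∑ q ∈ Icc 1 Q, 1 / (q.totient : ℝ) * nps q (fun χ => F _ χ.primitiveCharacter) ≤
      ∑ q ∈ Icc 1 Q, ∑ r ∈ Icc 2 Q, (if r ∣ q then 1 / (q.totient : ℝ) * prs r (F r) else 0) := by
    refine sum_le_sum fun q hq => ?_
    obtain ⟨hq1, hq2⟩ := mem_Icc.1 hq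
    have h2 := rearr_fix q hq1 F hF
    have h3 : ∑ r ∈ Icc 2 Q, (if r ∣ q then 1 / (q.totient : ℝ) * prs r (F r) else 0) =
        1 / (q.totient : ℝ) * ∑ r ∈ q.divisors.filter (fun r => 2 ≤ r), prs r (F r) := by
      rw [← sum_filter, mul_sum]
      refine sum_congr ?_ fun _ _ => rfl
      ext r
      simp only [mem_filter, mem_Icc, Nat.mem_divisors]
      constructor
      · rintro ⟨⟨a, b⟩, c⟩
        exact ⟨⟨c, by omega⟩, a⟩
      · rintro ⟨⟨a, b⟩, c⟩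
        exact ⟨⟨c, (Nat.le_of_dvd (by omega) a).trans hq2⟩, a⟩
    rw [h3]
    gcongr
  refine h1.trans ?_
  rw [sum_comm, mul_sum]
  refine sum_le_sum fun r hr => ?_
  obtain ⟨hr1, hr2⟩ := mem_Icc.1 hr
  rw [← sum_filter, ← sum_mul]
  have h4 : ∑ q ∈ (Icc 1 Q).filter (fun q => r ∣ q), 1 / (q.totient : ℝ) ≤
      1 / (r.totient : ℝ) * (C * Real.log Q) := by
    have hφ : (0 : ℝ) < r.totient := by exact_mod_cast Nat.totient_pos.2 (by omega)
    have h5 : ∑ q ∈ (Icc 1 Q).filter (fun q => r ∣ q), 1 / (q.totient : ℝ) ≤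
        ∑ q ∈ (Icc 1 Q).filter (fun q => r ∣ q), 1 / (r.totient : ℝ) * (1 / ((q / r).totient : ℝ)) := by
      refine sum_le_sum fun q hq => ?_
      obtain ⟨h6, k, rfl⟩ := mem_filter.1 hq
      have h7 := (mem_Icc.1 h6).1
      have hk : 0 < k := Nat.pos_of_ne_zero fun h => by rw [h] at h7; simp at h7
      rw [Nat.mul_div_cancel_left _ (by omega), div_mul_div_comm, one_mul]
      have h8 : (0 : ℝ) < k.totient := by exact_mod_cast Nat.totient_pos.2 hk
      apply one_div_le_one_div_of_le (by positivity)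
      exact_mod_cast Nat.totient_super_multiplicative r k
    refine h5.trans ?_
    rw [← mul_sum]
    have h9 : ∑ q ∈ (Icc 1 Q).filter (fun q => r ∣ q), 1 / ((q / r).totient : ℝ) ≤
        ∑ m ∈ Icc 1 Q, 1 / (m.totient : ℝ) := by
      rw [← sum_image (f := fun m : ℕ => 1 / (m.totient : ℝ)) (g := fun q => q / r)]
      · apply sum_le_sum_of_subset_of_nonneg
        · intro m hm
          obtain ⟨q, hq, rfl⟩ := mem_image.1 hm
          obtain ⟨h6, k, rfl⟩ := mem_filter.1 hq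
          obtain ⟨h7, h8⟩ := mem_Icc.1 h6
          rw [Nat.mul_div_cancel_left _ (by omega)]
          refine mem_Icc.2 ⟨Nat.pos_of_ne_zero fun h => by rw [h] at h7; simp at h7, ?_⟩
          exact (Nat.le_mul_of_pos_left k (by omega)).trans h8
        · intros; positivity
      · intro a ha b hb hab
        obtain ⟨_, k, rfl⟩ := mem_filter.1 ha
        obtain ⟨_, l, rfl⟩ := mem_filter.1 hb
        simp only [Nat.mul_div_cancel_left _ (show 0 < r by omega)] at hab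
        rw [hab]
    have h10 := h9.trans (hsum Q hQ)
    gcongr
  calc _ ≤ 1 / (r.totient : ℝ) * (C * Real.log Q) * prs r (F r) := by
        have := hG r
        gcongr
    _ = _ := by ring

end MTA
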